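import Pool.Agent.helper12.FI4.SpecX
import Pool.Agent.helper35.BQ.All

/-! Row fx:X9 (MP_baa4d7_al): the general case. -/

set_option autoImplicit false

namespace Pool.Agent.FI4

open Pool.Agent.helper58.DC Pool.Agent.DI Pool.Agent.GR Pool.Agent.OB Pool.Agent.DR Pool.Agent.FI Pool.Agent.FI3

theorem X9_small {G : Type} [Group G] [Finite G] (p : ℕ) (D : Subgroup G) (F F' : Set (D → G)) (h : F ⊆ F')
    (hF : Pool.Agent.FIW.SmallAut p D F') : Pool.Agent.FIW.SmallAut p D F := by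
  have h1 : F.ncard ≤ F'.ncard := Set.ncard_le_ncard h (Set.toFinite _)
  have h2 : (Pool.Agent.FIW.regularFor D F').ncard ≤ (Pool.Agent.FIW.regularFor D F).ncard := by
    refine Set.ncard_le_ncard ?_ (Set.toFinite _)
    intro u hu f hf
    exact hu f (h hf)
  rcases hF with hF | hF
  · left
    omega
  · right
    calc 2 * (F.ncard * Nat.card D) ≤ 2 * (F'.ncard * Nat.card D) :=
          Nat.mul_le_mul_left _ (Nat.mul_le_mul_right _ h1)
      _ < (p - 1) * (Pool.Agent.FIW.regularFor D F').ncard := hF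
      _ ≤ _ := Nat.mul_le_mul_left _ h2

theorem X9_autos {G E A : Type} [Group G] [Group E] [Group A] (X : Extension G E A)
    (M : Ideal (integralClosure ℤ ℂ)) (D : Subgroup G) (θ : G → ℂ) (W V : Subgroup A) (h : W ≤ V) :
    Pool.Agent.FIW.autos (resE X W) M D θ ⊤ ⊆ Pool.Agent.FIW.autos X M D θ V := by
  rintro f ⟨e, -, h1, h2, h3⟩
  exact ⟨e.1, h e.2, h1, h2, h3⟩

theorem X9 (hX8 : X8_stmt) (hD13 : D13_stmt) (hRE : RE_stmt) : X9_stmt := by
  intro p M hS G E A _ _ _ _ _ X hO D x θ χ hR hD s hs hps hgen hSA d U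
  have : Fact p.Prime := ⟨hS.pr⟩
  have hfA : Finite A := Finite.of_surjective X.proj X.proj_surjective
  have hχ : χ ∈ Irr G := hR.chi
  have hz : ∀ V : Subgroup A, ¬ (Pool.Agent.BQ.AI X M χ ≤ V ∧ V ≤ Pool.Agent.BQ.AB X M χ) →
      altSum X p M χ d V = 0 := fun V hV =>
    (Pool.Agent.BQ.All.qZRO G E A X p M hS.max hS.mem χ hχ d V hV).2
  refine hD13 A (fun V => altSum X p M χ d V) ?_ U
  intro U
  by_cases hc : Pool.Agent.BQ.AI X M χ ≤ Pool.Agent.BQ.AB X M χ ∧ U ≤ Pool.Agent.BQ.AB X M χ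
  · obtain ⟨hc1, hc2⟩ := hc
    have hW1 : (U ⊔ Pool.Agent.BQ.AI X M χ) ⊓ Subgroup.zpowers s ≤ Subgroup.zpowers s := inf_le_right
    have hW2 : (U ⊔ Pool.Agent.BQ.AI X M χ) ⊓ Subgroup.zpowers s ≤ U ⊔ Pool.Agent.BQ.AI X M χ := inf_le_left
    have hW3 : U ⊔ Pool.Agent.BQ.AI X M χ ≤
        ((U ⊔ Pool.Agent.BQ.AI X M χ) ⊓ Subgroup.zpowers s) ⊔ Pool.Agent.BQ.AI X M χ := by
      intro a ha
      obtain ⟨k, hk⟩ := hgen a ((sup_le hc2 hc1) ha)
      have h1 : s ^ k ∈ (U ⊔ Pool.Agent.BQ.AI X M χ) ⊓ Subgroup.zpowers s := by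
        refine ⟨?_, Subgroup.zpow_mem_zpowers s k⟩
        have h2 := Subgroup.mul_mem _ ((le_sup_right : Pool.Agent.BQ.AI X M χ ≤
          U ⊔ Pool.Agent.BQ.AI X M χ) hk) (Subgroup.inv_mem _ ha)
        rwa [mul_inv_cancel_right] at h2
      have h3 := Subgroup.mul_mem _ ((le_sup_left : _ ≤ ((U ⊔ Pool.Agent.BQ.AI X M χ) ⊓
        Subgroup.zpowers s) ⊔ Pool.Agent.BQ.AI X M χ) (Subgroup.inv_mem _ h1))
        ((le_sup_right : Pool.Agent.BQ.AI X M χ ≤ ((U ⊔ Pool.Agent.BQ.AI X M χ) ⊓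
        Subgroup.zpowers s) ⊔ Pool.Agent.BQ.AI X M χ) hk)
      rwa [inv_mul_cancel_left] at h3
    generalize (U ⊔ Pool.Agent.BQ.AI X M χ) ⊓ Subgroup.zpowers s = W at hW1 hW2 hW3
    have h8 : altSum (resE X W) p M χ d ⊤ = 0 := by
      have hcyc : IsCyclic W := by
        have h1 : IsCyclic (Subgroup.zpowers s) := inferInstance
        exact isCyclic_of_injective (Subgroup.inclusion hW1) (Subgroup.inclusion_injective hW1)
      have hcard : ¬ p ∣ Nat.card W := by
        intro h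
        apply hps
        rw [← Nat.card_zpowers]
        exact h.trans (Subgroup.card_dvd_of_le hW1)
      exact hX8 p M hS G (W.comap X.proj) W (resE X W) hcyc hcard hO D x θ χ hR hD
        (X9_small p D _ _ (X9_autos X M D θ W _ hW1) hSA) d
    rw [hRE G E A X p M χ hχ d W] at h8
    rw [← h8, finsum_subtype_eq_finsum_cond (f := fun V => altSum X p M χ d V) (fun V => U ≤ V),
      finsum_subtype_eq_finsum_cond (f := fun V => altSum X p M χ d V) (fun V => W ≤ V)]
    refine finsum_congr fun V => ?_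
    by_cases hV : Pool.Agent.BQ.AI X M χ ≤ V
    · have h1 : (U ≤ V) = (W ≤ V) := by
        apply propext
        constructor
        · intro h
          exact hW2.trans (sup_le h hV)
        · intro h
          exact le_sup_left.trans (hW3.trans (sup_le h hV))
      rw [h1]
    · rw [hz V fun h => hV h.1]
      simp
  · have h1 : ∀ V : {V : Subgroup A // U ≤ V}, altSum X p M χ d V.1 = 0 := by
      rintro ⟨V, hV⟩
      refine hz V ?_
      rintro ⟨h2, h3⟩
      exact hc ⟨h2.trans h3, hV.trans h3⟩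
    simp only [h1]
    exact finsum_zero

end Pool.Agent.FI4
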