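import Pool.Agent.helper58.FI4.SpecC

/-!
# Row `fi4:GMX`: exponents `m` exist
-/

set_option autoImplicit false

namespace Pool.Agent.FI4C

open Pool.Agent.helper58.DC Pool.Agent.DI Pool.Agent.GR Pool.Agent.OB Pool.Agent.DR Pool.Agent.FI Pool.Agent.FI3 Pool.Agent.FI4

theorem GMX_main (p n : ℕ) (hp : p.Prime) (hp2 : p ≠ 2) (hn : 0 < n) : ∃ m : ℕ, m.Coprime n ∧
    (∀ d : ℕ, d ∣ n → ¬ p ∣ d → m ≡ 1 [MOD d]) ∧
    ∀ s : ℕ, ¬ p ∣ s → ∃ j : ℕ, ∀ k : ℕ, p ^ k ∣ n → m ^ j ≡ s [MOD p ^ k] := by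
  obtain ⟨a, n', hn', rfl⟩ := Nat.exists_eq_pow_mul_and_not_dvd hn.ne' p hp.ne_one
  have : NeZero (p ^ a) := ⟨pow_ne_zero _ hp.ne_zero⟩
  have hcyc : IsCyclic (ZMod (p ^ a))ˣ := ZMod.isCyclic_units_of_prime_pow p hp hp2 a
  obtain ⟨g, hg⟩ := IsCyclic.exists_generator (α := (ZMod (p ^ a))ˣ)
  have hcp : ∀ (k d : ℕ), ¬ p ∣ d → Nat.Coprime (p ^ k) d := fun k d hd =>
    Nat.Coprime.pow_left k ((Nat.Prime.coprime_iff_not_dvd hp).2 hd)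
  obtain ⟨m, hm1, hm2⟩ := Nat.chineseRemainder (hcp a n' hn') (g : ZMod (p ^ a)).val 1
  have hmg : (m : ZMod (p ^ a)) = g := by
    rw [(ZMod.natCast_eq_natCast_iff _ _ _).2 hm1, ZMod.natCast_zmod_val]
  refine ⟨m, ?_, ?_, ?_⟩
  · refine Nat.Coprime.mul_right ?_ ?_
    · rw [← ZMod.isUnit_iff_coprime, hmg]
      exact g.isUnit
    · have h := hm2.gcd_eq
      rw [Nat.gcd_one_left] at h
      exact h
  · intro d hd hpd
    exact hm2.of_dvd (Nat.Coprime.dvd_of_dvd_mul_left (hcp a d hpd).symm hd)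
  · intro s hs
    have hu : s.Coprime (p ^ a) := (hcp a s hs).symm
    have h1 : ZMod.unitOfCoprime s hu ∈ Submonoid.powers g := mem_powers_iff_mem_zpowers.2 (hg _)
    obtain ⟨j, hj⟩ := h1
    have h2 : ((m ^ j : ℕ) : ZMod (p ^ a)) = (s : ZMod (p ^ a)) := by
      rw [Nat.cast_pow, hmg]
      have h3 := congrArg (fun u : (ZMod (p ^ a))ˣ => (u : ZMod (p ^ a))) hj
      simpa using h3
    have h4 := (ZMod.natCast_eq_natCast_iff _ _ _).1 h2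
    refine ⟨j, fun k hk => h4.of_dvd ?_⟩
    exact Nat.Coprime.dvd_of_dvd_mul_right (hcp k n' hn') hk

theorem GMX : Pool.Agent.FI4.GMX_stmt := by
  intro p n hp hp2 hn
  obtain ⟨m, h1, h2, h3⟩ := GMX_main p n hp hp2 hn
  exact ⟨m, h1, h2, h3⟩

end Pool.Agent.FI4C
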